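import Pool.Agent.H20.SM.TZ
import Pool.Agent.H96.CV.Basic
import Pool.Agent.H27.CV.CB
import Pool.Agent.H86.CV.GU
import Pool.Agent.H86.CV.DV
import Pool.Agent.H3.CV.GC

/-!
# The trivial bound of the contribution of a relation, with logarithms (board sm_modules, DTz)

Adapted from `Pool/Agent/H86/CRG/DT.lean` of helper86.
-/

set_option autoImplicit false

open NumberField NumberField.InfinitePlace Complex Filter Topology MeasureTheory

namespace Pool.Agent.H13.SMZ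

open Pool.Agent.H28.RC Pool.Agent.H25.HK Pool.Agent.H37.CV Pool.Agent.H96.CV Pool.Agent.H65.CRZ
  Pool.Agent.H65.CRG Pool.Agent.H20.SM

theorem dz_hf {c N G : ℝ} (hc : 0 < c) (hN : 0 < N) (hG : 0 < G) :
    c ^ (-(1 / 2) : ℝ) * (c * N / G ^ 2) ^ (-(1 / 2) : ℝ) = G / c * N ^ (-(1 / 2) : ℝ) := by
  have e3 : c * N / G ^ 2 = c * N * ((G ^ 2)⁻¹) := by
    field_simp
  have e5 : ((G ^ 2)⁻¹) ^ (-(1 / 2) : ℝ) = G := by
    rw [Real.inv_rpow (by positivity), Real.rpow_neg (sq_nonneg G), inv_inv,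
      ← Real.sqrt_eq_rpow, Real.sqrt_sq hG.le]
  have e4 : c ^ (-(1 / 2) : ℝ) * c ^ (-(1 / 2) : ℝ) = c⁻¹ := by
    rw [← Real.rpow_add hc, ← Real.rpow_neg_one]
    norm_num
  rw [e3, Real.mul_rpow (by positivity) (by positivity), Real.mul_rpow hc.le hN.le, e5]
  calc c ^ (-(1 / 2) : ℝ) * (c ^ (-(1 / 2) : ℝ) * N ^ (-(1 / 2) : ℝ) * G)
      = (c ^ (-(1 / 2) : ℝ) * c ^ (-(1 / 2) : ℝ)) * N ^ (-(1 / 2) : ℝ) * G := by ring
    _ = _ := by rw [e4]; ring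

/-- `P ^ δ ≤ exp (C₀ c)` if `log P ≤ c Λ` and `δ Λ ≤ C₀`. -/
theorem dz_exp {P δ Λ C₀ c : ℝ} (hP : 0 < P) (hδ : 0 ≤ δ) (hc : 0 ≤ c)
    (h1 : Real.log P ≤ c * Λ) (h2 : δ * Λ ≤ C₀) : P ^ δ ≤ Real.exp (c * C₀) := by
  rw [Real.rpow_def_of_pos hP]
  refine Real.exp_le_exp.2 ?_
  calc Real.log P * δ ≤ c * Λ * δ := mul_le_mul_of_nonneg_right h1 hδ
    _ = c * (δ * Λ) := by ring
    _ ≤ c * C₀ := mul_le_mul_of_nonneg_left h2 hc

theorem dz_final {δ Q M N X C₀ : ℝ} {A : ℕ} (hδ : 0 ≤ δ) (hδ1 : δ ≤ 1) (hQ : 1 ≤ Q)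
    (hM : 1 ≤ M) (hN : 1 ≤ N) (hX : X = Q * M ^ 2 / N)
    (hC : δ * (1 + Real.log Q + Real.log M) ≤ C₀) :
    (M ^ 2 * N) ^ δ * min 1 (X ^ ((A : ℝ) + 1)) ≤ Real.exp (4 * C₀) * min 1 (X ^ A) := by
  have hM0 : 0 < M := by linarith
  have hQ0 : 0 < Q := by linarith
  have hN0 : 0 < N := by linarith
  have hX0 : 0 < X := by rw [hX]; positivity
  have hlQ := Real.log_nonneg hQ
  have hlM := Real.log_nonneg hM
  have hP0 : 0 < Q * M ^ 4 := by positivity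
  have hPN : M ^ 2 * N = Q * M ^ 4 / X := by
    rw [hX]
    field_simp
  have hPe : (Q * M ^ 4) ^ δ ≤ Real.exp (4 * C₀) := by
    refine dz_exp hP0 hδ (by norm_num) ?_ hC
    rw [Real.log_mul hQ0.ne' (by positivity), Real.log_pow]
    push_cast
    linarith
  have hp0 : 0 ≤ (Q * M ^ 4) ^ δ := by positivity
  rcases le_or_gt 1 X with h | h
  · have e1 : min 1 (X ^ A) = 1 := min_eq_left (one_le_pow₀ h)
    rw [e1, mul_one]
    have a2 : (M ^ 2 * N) ^ δ ≤ (Q * M ^ 4) ^ δ := by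
      rw [hPN]
      exact Real.rpow_le_rpow (by positivity) (div_le_self hP0.le h) hδ
    calc (M ^ 2 * N) ^ δ * min 1 (X ^ ((A : ℝ) + 1)) ≤ (Q * M ^ 4) ^ δ * 1 :=
          mul_le_mul a2 (min_le_left _ _) (le_min zero_le_one (by positivity)) hp0
      _ ≤ _ := by rw [mul_one]; exact hPe
  · have e1 : min 1 (X ^ A) = X ^ A := min_eq_right (pow_le_one₀ hX0.le h.le)
    rw [e1]
    have a2 : (M ^ 2 * N) ^ δ = (Q * M ^ 4) ^ δ * X ^ (-δ) := by
      rw [hPN, Real.div_rpow hP0.le hX0.le, Real.rpow_neg hX0.le]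
      rfl
    have a3 : min 1 (X ^ ((A : ℝ) + 1)) ≤ X ^ A * X := by
      refine (min_le_right _ _).trans (le_of_eq ?_)
      rw [Real.rpow_add hX0, Real.rpow_natCast, Real.rpow_one]
    have a5 : X ^ (-δ) * X ≤ 1 := by
      calc X ^ (-δ) * X = X ^ (1 - δ) := by
            rw [sub_eq_neg_add, Real.rpow_add hX0, Real.rpow_one]
        _ ≤ 1 := Real.rpow_le_one hX0.le h.le (by linarith)
    calc (M ^ 2 * N) ^ δ * min 1 (X ^ ((A : ℝ) + 1))
        ≤ ((Q * M ^ 4) ^ δ * X ^ (-δ)) * (X ^ A * X) := by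
          rw [a2]
          exact mul_le_mul_of_nonneg_left a3 (by positivity)
      _ = (Q * M ^ 4) ^ δ * X ^ A * (X ^ (-δ) * X) := by ring
      _ ≤ (Q * M ^ 4) ^ δ * X ^ A * 1 := by gcongr
      _ ≤ Real.exp (4 * C₀) * X ^ A := by
          rw [mul_one]
          exact mul_le_mul_of_nonneg_right hPe (by positivity)

theorem pf_DTz (hSN : T_SNz) : T_DTz := by
  classical
  intro K _ _ _ C₀ A hC₀
  have hA0 : (0 : ℝ) ≤ A := Nat.cast_nonneg _
  obtain ⟨C₁, B, hC₁, hB, hS⟩ := hSN K (4 * C₀) ((A : ℝ) + 1) (by positivity) (by linarith)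
  obtain ⟨C₃, -, hC₃, -⟩ := Pool.Agent.H86.CV.pf_GU Pool.Agent.H86.CV.pf_DV K
  refine ⟨(|C₃| + 1) ^ 3 * (Real.exp (4 * C₀) * C₁), B, 4, by positivity, hB,
    fun m Q M s₁ s₂ c₁ c₂ I J hQ hM hs₁ hs₂ hz₁ hz₂ hc₁ hc₂ hI hJ hIJ => ?_⟩
  have hD : Disjoint (pf I) (pf J) := ((Pool.Agent.H3.CV.pf_GC K ∅ ∅).2 I J hI hJ hIJ).1
  obtain ⟨hb1, hb2⟩ := Pool.Agent.H27.CV.pf_CB (PrI K) np (PM K M) (pf I) (pf J) M two_le_np hM hD
  obtain ⟨L, hL⟩ : ∃ L : ℝ, L = 1 + |s₁.im| + |s₂.im| := ⟨_, rfl⟩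
  have hL1 : 1 ≤ L := by
    have := abs_nonneg s₁.im
    have := abs_nonneg s₂.im
    linarith
  rw [← hL]
  obtain ⟨Λ, hΛ⟩ : ∃ Λ : ℝ, Λ = 1 + Real.log Q + Real.log M := ⟨_, rfl⟩
  rw [← hΛ] at hz₁ hz₂ ⊢
  have hlQ : 0 ≤ Real.log Q := Real.log_nonneg hQ
  have hlM : 0 ≤ Real.log M := Real.log_nonneg hM
  have hΛ1 : 1 ≤ Λ := by linarith
  have hΛ0 : 0 < Λ := by linarith
  have hI0 := nm_pos hI
  have hJ0 := nm_pos hJ
  have hN1 : 1 ≤ nm I * nm J := by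
    have := mul_le_mul (one_le_nm hI) (one_le_nm hJ) zero_le_one hI0.le
    linarith
  obtain ⟨N, hN⟩ : ∃ N : ℝ, N = nm I * nm J := ⟨_, rfl⟩
  have hwt : wt (I, J) = (2 : ℝ) ^ ((pf I).card + (pf J).card) * N ^ (-(1 / 2) : ℝ) := by
    rw [hN]
    rfl
  rw [hwt, ← hN]
  rw [← hN] at hN1
  have hN0 : 0 < N := by linarith
  have hM0 : 0 < M := by linarith
  have hQ0 : 0 < Q := by linarith
  obtain ⟨X, hX⟩ : ∃ X : ℝ, X = Q * M ^ 2 / N := ⟨_, rfl⟩
  have hX0 : 0 < X := by rw [hX]; positivity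
  -- the exponent
  obtain ⟨δ, hδ⟩ : ∃ δ : ℝ, δ = max |s₁.re - 1 / 2| |s₂.re - 1 / 2| := ⟨_, rfl⟩
  have hδ0 : 0 ≤ δ := by rw [hδ]; exact (abs_nonneg _).trans (le_max_left _ _)
  have hδ1 : δ ≤ 1 / 16 := by rw [hδ]; exact max_le hs₁ hs₂
  have hδΛ : δ * Λ ≤ C₀ := by
    rw [hδ]
    rcases max_choice |s₁.re - 1 / 2| |s₂.re - 1 / 2| with h | h
    · rw [h]; exact hz₁
    · rw [h]; exact hz₂
  have hd₁ : |s₁.re - 1 / 2| ≤ δ := by rw [hδ]; exact le_max_left _ _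
  have hd₂ : |s₂.re - 1 / 2| ≤ δ := by rw [hδ]; exact le_max_right _ _
  have hr₁ : -s₁.re ≤ -(1 / 2) + δ := by have := (abs_le.1 hd₁).1; linarith
  have hr₂ : -s₂.re ≤ -(1 / 2) + δ := by have := (abs_le.1 hd₂).1; linarith
  have hLB0 : 0 ≤ L ^ B := Real.rpow_nonneg (by linarith) _
  obtain ⟨μ, hμ⟩ : ∃ μ : ℝ, μ = min 1 (X ^ ((A : ℝ) + 1)) := ⟨_, rfl⟩
  have hμ0 : 0 ≤ μ := by rw [hμ]; exact le_min zero_le_one (by positivity)
  have hterm : ∀ S ∈ DM K M, ∀ T ∈ DM K M,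
      ‖((nm I : ℝ) : ℂ) ^ (-s₁) * ((nm J : ℝ) : ℂ) ^ (-s₂) *
        (c₁ S * c₂ T * (((nS np T / gg np (pf I) (pf J) S T : ℝ) : ℂ) ^ (-s₁) *
        ((nS np S / gg np (pf I) (pf J) S T : ℝ) : ℂ) ^ (-s₂)) *
        Sn m s₁ s₂ (Q * gg np (pf I) (pf J) S T ^ 2 / (nS np S * nS np T * N)))‖ ≤
      (gg np (pf I) (pf J) S T / (nS np S * nS np T)) *
        (N ^ (-(1 / 2) : ℝ) * (M ^ 2 * N) ^ δ * (C₁ * L ^ B * (Λ * μ))) := by
    intro S hS' T hT'
    obtain ⟨g1, g2⟩ := hb1 S hS' T hT'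
    obtain ⟨hGS, -, hGG⟩ := Pool.Agent.H3.CV.pf_GC K S T |>.imp id (fun h => h I J hI hJ hIJ)
    have hGT := (Pool.Agent.H3.CV.pf_GC K T S).1
    obtain ⟨g, u, v, hg, hu, hv, -, hgn⟩ := hGG
    obtain ⟨G, hG⟩ : ∃ G : ℝ, G = gg np (pf I) (pf J) S T := ⟨_, rfl⟩
    rw [← hG] at g1 g2 hgn ⊢
    have hG0 : 0 < G := by linarith
    obtain ⟨a, ha⟩ : ∃ a : ℝ, a = nS np S := ⟨_, rfl⟩
    obtain ⟨b, hb⟩ : ∃ b : ℝ, b = nS np T := ⟨_, rfl⟩
    have ha1 : 1 ≤ a := by rw [ha]; exact one_le_nS S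
    have hb1' : 1 ≤ b := by rw [hb]; exact one_le_nS T
    have haM : a ≤ M := by rw [ha]; exact (mem_DM.1 hS').2
    have hbM : b ≤ M := by rw [hb]; exact (mem_DM.1 hT').2
    have ha0 : 0 < a := by linarith
    have hb0 : 0 < b := by linarith
    have hmul : ∀ x y : Ideal (𝓞 K), nm (x * y) = nm x * nm y := fun x y => by
      unfold nm
      rw [map_mul, Nat.cast_mul]
    have hu0 : u ≠ ⊥ := by
      rintro rfl
      have h2 := congrArg nm hu
      rw [hmul, hmul, hGS, ← ha] at h2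
      have h3 : nm (⊥ : Ideal (𝓞 K)) = 0 := by
        unfold nm
        rw [Ideal.absNorm_bot, Nat.cast_zero]
      rw [h3, mul_zero] at h2
      exact (mul_pos ha0 hJ0).ne' h2
    have hv0 : v ≠ ⊥ := by
      rintro rfl
      have h2 := congrArg nm hv
      rw [hmul, hmul, hGT, ← hb] at h2
      have h3 : nm (⊥ : Ideal (𝓞 K)) = 0 := by
        unfold nm
        rw [Ideal.absNorm_bot, Nat.cast_zero]
      rw [h3, mul_zero] at h2
      exact (mul_pos hb0 hI0).ne' h2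
    have eu : a * nm J = G * nm u := by
      have h2 := congrArg nm hu
      rwa [hmul, hmul, hGS, hgn, ← ha] at h2
    have ev : b * nm I = G * nm v := by
      have h2 := congrArg nm hv
      rwa [hmul, hmul, hGT, hgn, ← hb] at h2
    have hu1 := one_le_nm hu0
    have hv1 := one_le_nm hv0
    have hu00 : 0 < nm u := by linarith
    have hv00 : 0 < nm v := by linarith
    rw [← ha, ← hb] at g2 ⊢
    have hns : 0 < a * b := mul_pos ha0 hb0
    obtain ⟨Z, hZ⟩ : ∃ Z : ℝ, Z = Q * G ^ 2 / (a * b * N) := ⟨_, rfl⟩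
    rw [← hZ]
    have hZp : 0 < Z := by rw [hZ]; positivity
    have hZle : Z ≤ X := by
      have e1 : Z = Q * (G ^ 2 / (a * b)) / N := by
        rw [hZ]
        field_simp
      rw [e1, hX]
      gcongr
    have hZQ : Z ≤ Q := by
      have e1 : G ^ 2 ≤ a * b * N := by
        have e2 : a * b * N = G ^ 2 * (nm u * nm v) := by
          rw [hN]
          calc a * b * (nm I * nm J) = (a * nm J) * (b * nm I) := by ring
            _ = _ := by rw [eu, ev]; ring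
        have e3 : 1 ≤ nm u * nm v := by
          have := mul_le_mul hu1 hv1 zero_le_one hu00.le
          linarith
        rw [e2]
        have := mul_le_mul_of_nonneg_left e3 (sq_nonneg G)
        linarith
      rw [hZ, div_le_iff₀ (by positivity)]
      exact mul_le_mul_of_nonneg_left e1 hQ0.le
    have hSg : ‖Sn m s₁ s₂ Z‖ ≤ C₁ * L ^ B * (Λ * μ) := by
      have k0 : |(s₁ + s₂).re - 1| * Real.log (2 + Z) ≤ 4 * C₀ := by
        have e1 : |(s₁ + s₂).re - 1| ≤ 2 * δ := by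
          rw [Complex.add_re]
          have : s₁.re + s₂.re - 1 = (s₁.re - 1 / 2) + (s₂.re - 1 / 2) := by ring
          rw [this]
          refine (abs_add_le _ _).trans ?_
          linarith
        have e2 : Real.log (2 + Z) ≤ 2 * Λ := by
          have f1 : 2 + Z ≤ 3 * Q := by linarith
          have f2 : Real.log (2 + Z) ≤ Real.log (3 * Q) :=
            Real.log_le_log (by linarith) f1
          rw [Real.log_mul (by norm_num) hQ0.ne'] at f2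
          have f3 : Real.log 3 ≤ 2 := by
            have := Real.log_le_sub_one_of_pos (show (0 : ℝ) < 3 by norm_num)
            linarith
          linarith
        have e3 : 0 ≤ Real.log (2 + Z) := Real.log_nonneg (by linarith)
        calc |(s₁ + s₂).re - 1| * Real.log (2 + Z) ≤ (2 * δ) * (2 * Λ) :=
              mul_le_mul e1 e2 e3 (by positivity)
          _ = 4 * (δ * Λ) := by ring
          _ ≤ 4 * C₀ := by linarith
      have k1 := (hS m s₁ s₂ Z hs₁ hs₂ hZp k0).1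
      rw [← hL] at k1
      refine k1.trans (mul_le_mul_of_nonneg_left ?_ (by positivity))
      refine mul_le_mul ?_ ?_ (le_min zero_le_one (by positivity)) hΛ0.le
      · have e1 : Real.log Z ≤ Real.log Q := Real.log_le_log hZp hZQ
        have e2 : max (Real.log Z) 0 ≤ Real.log Q := max_le e1 hlQ
        linarith
      · rw [hμ]
        exact min_le_min le_rfl (Real.rpow_le_rpow hZp.le hZle (by positivity))
    have hpw : ‖((nm I : ℝ) : ℂ) ^ (-s₁) * ((nm J : ℝ) : ℂ) ^ (-s₂)‖ *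
        (‖c₁ S‖ * ‖c₂ T‖ * (‖((b / G : ℝ) : ℂ) ^ (-s₁)‖ * ‖((a / G : ℝ) : ℂ) ^ (-s₂)‖)) ≤
        G / (a * b) * (N ^ (-(1 / 2) : ℝ) * (M ^ 2 * N) ^ δ) := by
      rw [norm_mul, Complex.norm_cpow_eq_rpow_re_of_pos hI0,
        Complex.norm_cpow_eq_rpow_re_of_pos hJ0,
        Complex.norm_cpow_eq_rpow_re_of_pos (by positivity : 0 < b / G),
        Complex.norm_cpow_eq_rpow_re_of_pos (by positivity : 0 < a / G), neg_re, neg_re]
      have e1 : nm v = b / G * nm I := by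
        rw [div_mul_eq_mul_div, ev]
        field_simp
      have e2 : nm u = a / G * nm J := by
        rw [div_mul_eq_mul_div, eu]
        field_simp
      have hab : ‖c₁ S‖ * ‖c₂ T‖ ≤ (a * b) ^ (-(1 / 2) : ℝ) := by
        rw [Real.mul_rpow ha0.le hb0.le]
        have k1 := hc₁ S
        have k2 := hc₂ T
        rw [← ha] at k1
        rw [← hb] at k2
        exact mul_le_mul k1 k2 (norm_nonneg _) (by positivity)
      have hv2 : (nm I) ^ (-s₁.re) * (b / G) ^ (-s₁.re) ≤ (nm v) ^ (-(1 / 2) + δ) := by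
        rw [← Real.mul_rpow hI0.le (by positivity), mul_comm (nm I), ← e1]
        exact Real.rpow_le_rpow_of_exponent_le hv1 hr₁
      have hu2 : (nm J) ^ (-s₂.re) * (a / G) ^ (-s₂.re) ≤ (nm u) ^ (-(1 / 2) + δ) := by
        rw [← Real.mul_rpow hJ0.le (by positivity), mul_comm (nm J), ← e2]
        exact Real.rpow_le_rpow_of_exponent_le hu1 hr₂
      have euv : nm v * nm u = a * b * N / G ^ 2 := by
        rw [e1, e2, hN]
        field_simp
      have huv : (nm v) ^ (-(1 / 2) + δ) * (nm u) ^ (-(1 / 2) + δ) ≤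
          (a * b * N / G ^ 2) ^ (-(1 / 2) : ℝ) * (M ^ 2 * N) ^ δ := by
        rw [← Real.mul_rpow hv00.le hu00.le, Real.rpow_add (by positivity), euv]
        refine mul_le_mul_of_nonneg_left ?_ (by positivity)
        refine Real.rpow_le_rpow (by positivity) ?_ hδ0
        have hG2 : 1 ≤ G ^ 2 := one_le_pow₀ g1
        refine (div_le_self (by positivity) hG2).trans ?_
        rw [sq M]
        gcongr
      have hfin := dz_hf hns hN0 hG0
      calc nm I ^ (-s₁.re) * nm J ^ (-s₂.re) *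
            (‖c₁ S‖ * ‖c₂ T‖ * ((b / G) ^ (-s₁.re) * (a / G) ^ (-s₂.re)))
          = (‖c₁ S‖ * ‖c₂ T‖) * (((nm I) ^ (-s₁.re) * (b / G) ^ (-s₁.re)) *
              ((nm J) ^ (-s₂.re) * (a / G) ^ (-s₂.re))) := by ring
        _ ≤ (a * b) ^ (-(1 / 2) : ℝ) * ((nm v) ^ (-(1 / 2) + δ) * (nm u) ^ (-(1 / 2) + δ)) := by
            gcongr
        _ ≤ (a * b) ^ (-(1 / 2) : ℝ) * ((a * b * N / G ^ 2) ^ (-(1 / 2) : ℝ) *
              (M ^ 2 * N) ^ δ) := by gcongr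
        _ = ((a * b) ^ (-(1 / 2) : ℝ) * (a * b * N / G ^ 2) ^ (-(1 / 2) : ℝ)) *
              (M ^ 2 * N) ^ δ := by ring
        _ = G / (a * b) * (N ^ (-(1 / 2) : ℝ) * (M ^ 2 * N) ^ δ) := by rw [hfin]; ring
    rw [norm_mul, norm_mul (c₁ S * c₂ T * _), norm_mul (c₁ S * c₂ T), norm_mul (c₁ S),
      norm_mul (((b / G : ℝ) : ℂ) ^ (-s₁))]
    have hq0 : 0 ≤ G / (a * b) * (N ^ (-(1 / 2) : ℝ) * (M ^ 2 * N) ^ δ) := by positivity
    calc _ = (‖((nm I : ℝ) : ℂ) ^ (-s₁) * ((nm J : ℝ) : ℂ) ^ (-s₂)‖ *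
          (‖c₁ S‖ * ‖c₂ T‖ * (‖((b / G : ℝ) : ℂ) ^ (-s₁)‖ * ‖((a / G : ℝ) : ℂ) ^ (-s₂)‖))) *
            ‖Sn m s₁ s₂ Z‖ := by ring
      _ ≤ (G / (a * b) * (N ^ (-(1 / 2) : ℝ) * (M ^ 2 * N) ^ δ)) *
            (C₁ * L ^ B * (Λ * μ)) := mul_le_mul hpw hSg (norm_nonneg _) hq0
      _ = _ := by ring
  have hΘ : 0 ≤ N ^ (-(1 / 2) : ℝ) * (M ^ 2 * N) ^ δ * (C₁ * L ^ B * (Λ * μ)) := by
    positivity
  have hG0 : 0 ≤ GS np (PM K M) M := by
    unfold GS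
    refine Finset.sum_nonneg fun S _ => inv_nonneg.2 ?_
    exact Finset.prod_nonneg fun P _ => by linarith [two_le_np P]
  have hG3 : GS np (PM K M) M ≤ (|C₃| + 1) * Λ := by
    refine (hC₃ M hM).trans ?_
    have h1 : C₃ ≤ |C₃| + 1 := by linarith [le_abs_self C₃]
    have h2 : 1 + Real.log M ≤ Λ := by linarith
    calc C₃ * (1 + Real.log M) ≤ (|C₃| + 1) * (1 + Real.log M) :=
          mul_le_mul_of_nonneg_right h1 (by linarith)
      _ ≤ (|C₃| + 1) * Λ := mul_le_mul_of_nonneg_left h2 (by positivity)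
  have hsub : ∀ S ∈ DMc m M, S ∈ DM K M := fun S hS' => (Finset.mem_filter.1 hS').1
  have hgnn : ∀ S ∈ DM K M, ∀ T ∈ DM K M,
      0 ≤ gg np (pf I) (pf J) S T / (nS np S * nS np T) := by
    intro S hS' T hT'
    have h1 := (hb1 S hS' T hT').1
    have h2 := one_le_nS (K := K) S
    have h3 := one_le_nS (K := K) T
    have h4 : 0 < nS np S * nS np T := by nlinarith
    exact div_nonneg (by linarith) h4.le
  have hsum : ∑ S ∈ DMc m M, ∑ T ∈ DMc m M, gg np (pf I) (pf J) S T / (nS np S * nS np T) ≤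
      2 ^ ((pf I).card + (pf J).card) * GS np (PM K M) M ^ 3 := by
    refine le_trans ?_ hb2
    calc ∑ S ∈ DMc m M, ∑ T ∈ DMc m M, gg np (pf I) (pf J) S T / (nS np S * nS np T)
        ≤ ∑ S ∈ DMc m M, ∑ T ∈ DM K M, gg np (pf I) (pf J) S T / (nS np S * nS np T) :=
          Finset.sum_le_sum fun S hS' => Finset.sum_le_sum_of_subset_of_nonneg hsub
            fun T hT' _ => hgnn S (hsub S hS') T hT'
      _ ≤ ∑ S ∈ DM K M, ∑ T ∈ DM K M, gg np (pf I) (pf J) S T / (nS np S * nS np T) :=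
          Finset.sum_le_sum_of_subset_of_nonneg hsub
            fun S hS' _ => Finset.sum_nonneg fun T hT' => hgnn S hS' T hT'
  unfold Dz
  rw [← hN]
  simp only [Finset.mul_sum]
  refine (norm_sum_le _ _).trans ?_
  refine (Finset.sum_le_sum fun S hS' => (norm_sum_le _ _).trans
    (Finset.sum_le_sum fun T hT' => hterm S (hsub S hS') T (hsub T hT'))).trans ?_
  simp only [← Finset.sum_mul]
  refine (mul_le_mul_of_nonneg_right hsum hΘ).trans ?_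
  have hfin := dz_final (A := A) hδ0 (by linarith) hQ hM hN1 hX
    (show δ * (1 + Real.log Q + Real.log M) ≤ C₀ by rw [← hΛ]; exact hδΛ)
  rw [← hμ, hX] at hfin
  calc 2 ^ ((pf I).card + (pf J).card) * GS np (PM K M) M ^ 3 *
        (N ^ (-(1 / 2) : ℝ) * (M ^ 2 * N) ^ δ * (C₁ * L ^ B * (Λ * μ)))
      ≤ 2 ^ ((pf I).card + (pf J).card) * ((|C₃| + 1) * Λ) ^ 3 *
        (N ^ (-(1 / 2) : ℝ) * (M ^ 2 * N) ^ δ * (C₁ * L ^ B * (Λ * μ))) := by gcongr
    _ = (|C₃| + 1) ^ 3 * C₁ * L ^ B * (2 ^ ((pf I).card + (pf J).card) *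
        N ^ (-(1 / 2) : ℝ)) * Λ ^ 4 * ((M ^ 2 * N) ^ δ * μ) := by ring
    _ ≤ (|C₃| + 1) ^ 3 * C₁ * L ^ B * (2 ^ ((pf I).card + (pf J).card) *
        N ^ (-(1 / 2) : ℝ)) * Λ ^ 4 *
        (Real.exp (4 * C₀) * min 1 ((Q * M ^ 2 / N) ^ A)) := by gcongr
    _ = _ := by ring

end Pool.Agent.H13.SMZ
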