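import Pool.Agent.H20.SM.TW
import Pool.Agent.H42.SM.CQz
import Pool.Agent.H91.CRZ.B

/-!
# The orders of the zeros of almost all `L`-functions (board sm_modules, row ORw)
-/

set_option autoImplicit false

open NumberField NumberField.InfinitePlace Complex Filter Topology MeasureTheory

namespace Pool.Agent.H13.SMZ

open Pool.Agent.H28.RC Pool.Agent.H25.HK Pool.Agent.H37.CV Pool.Agent.H65.CRZ Pool.Agent.H65.CRG
  Pool.Agent.H20.SM

theorem orw_ne_top (K : Type) [Field K] [NumberField K] (q : ℕ) (hq : 2 ≤ q) :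
    qi K q ≠ ⊤ := by
  intro h
  rw [qi, Ideal.span_singleton_eq_top] at h
  have h4 : IsUnit ((Ideal.absNorm (Ideal.span {(q : 𝓞 K)})) : ℕ) := by
    rw [Ideal.span_singleton_eq_top.2 h, Ideal.absNorm_top]
    exact isUnit_one
  have h5 : Ideal.absNorm (Ideal.span {(q : 𝓞 K)}) = q ^ Module.finrank ℚ K := by
    have := Ideal.absNorm_span_natCast (S := 𝓞 K) q
    rw [this, RingOfIntegers.rank]
  rw [h5, Nat.isUnit_iff] at h4
  have h6 : 1 < q ^ Module.finrank ℚ K := Nat.one_lt_pow (by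
    have : 0 < Module.finrank ℚ K := Module.finrank_pos
    omega) (by omega)
  omega

/-- special moduli are large -/
theorem orw_large {F : Type} [Field F] [NumberField F] {A : ℕ} {x : ℝ} {q : ℕ} (hx : 2 ≤ x)
    (hq : Sp F A x q) : 2 ≤ q ∧ Real.sqrt x ≤ q := by
  have h1 : 0 < Real.log x := Real.log_pos (by linarith)
  have h2 : (0 : ℝ) < q.primeFactors.card := lt_of_lt_of_le (pow_pos h1 A) hq.lo
  have h3 : 0 < q.primeFactors.card := by exact_mod_cast h2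
  obtain ⟨p, hp⟩ := Finset.card_pos.1 h3
  have h4 := Nat.prime_of_mem_primeFactors hp
  have h5 := Nat.le_of_mem_primeFactors hp
  refine ⟨h4.two_le.trans h5, (hq.low p hp).trans ?_⟩
  exact_mod_cast h5

theorem orw_count {ι : Type} (P : Finset ι) (p : ι → Prop) [DecidablePred p] (g : ι → ℝ)
    (c K : ℝ) (hg : ∀ i ∈ P, 0 ≤ g i) (hp : ∀ i ∈ P, p i → c ≤ g i)
    (hs : ∑ i ∈ P, g i ≤ K) : ((P.filter p).card : ℝ) * c ≤ K := by
  calc ((P.filter p).card : ℝ) * c = ∑ i ∈ P.filter p, c := by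
        rw [Finset.sum_const, nsmul_eq_mul]
    _ ≤ ∑ i ∈ P.filter p, g i := Finset.sum_le_sum fun i hi =>
        hp i (Finset.mem_filter.1 hi).1 (Finset.mem_filter.1 hi).2
    _ ≤ ∑ i ∈ P, g i := Finset.sum_le_sum_of_subset_of_nonneg (Finset.filter_subset _ _)
        fun i hi _ => hg i hi
    _ ≤ K := hs

/-- the sum of the means over a circle -/
theorem orw_circle {ι : Type} (P : Finset ι) (f : ι → ℂ → ℂ) (s₀ : ℂ) (r K : ℝ)
    (hf : ∀ i ∈ P, Continuous (f i))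
    (hK : ∀ φ : ℝ, ∑ i ∈ P, ‖f i (s₀ + 2 * r * cexp (φ * I))‖ ^ 2 ≤ K) :
    ∑ i ∈ P, 1 / (2 * Real.pi) * ∫ φ in (0 : ℝ)..(2 * Real.pi),
      ‖f i (s₀ + 2 * r * cexp (φ * I))‖ ^ 2 ≤ K := by
  have hpi := Real.pi_pos
  have hc : ∀ i ∈ P, Continuous (fun φ : ℝ => ‖f i (s₀ + 2 * r * cexp (φ * I))‖ ^ 2) := by
    intro i hi
    have h1 : Continuous (fun φ : ℝ => s₀ + 2 * r * cexp (φ * I)) := by fun_prop
    exact ((hf i hi).comp h1).norm.pow 2
  rw [← Finset.mul_sum, ← intervalIntegral.integral_finsetSum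
    fun i hi => (hc i hi).intervalIntegrable _ _]
  have h2 : ∫ φ in (0 : ℝ)..(2 * Real.pi), ∑ i ∈ P, ‖f i (s₀ + 2 * r * cexp (φ * I))‖ ^ 2 ≤
      ∫ _φ in (0 : ℝ)..(2 * Real.pi), K := by
    refine intervalIntegral.integral_mono (by positivity) ?_ ?_ hK
    · exact (continuous_finsetSum _ hc).intervalIntegrable _ _
    · exact continuous_const.intervalIntegrable _ _
  rw [intervalIntegral.integral_const, smul_eq_mul, sub_zero] at h2
  rw [one_div, inv_mul_le_iff₀ (by positivity)]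
  exact h2

theorem orw_order {Z : ℂ → ℂ} (hZ : Differentiable ℂ Z) (c w : ℂ) (k : ℕ)
    (h : ¬ analyticOrderAt Z w ≤ (k : ℕ∞)) :
    ¬ analyticOrderAt (fun s => Z s * c) w ≤ (k : ℕ∞) := by
  have h1 : AnalyticAt ℂ Z w := hZ.analyticAt w
  have h2 : AnalyticAt ℂ (fun _ : ℂ => c) w := analyticAt_const
  have h3 : analyticOrderAt (fun s => Z s * c) w =
      analyticOrderAt Z w + analyticOrderAt (fun _ : ℂ => c) w := analyticOrderAt_mul h1 h2
  rw [h3]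
  intro h4
  exact h (le_trans (self_le_add_right _ _) h4)

open scoped Classical in
theorem pf_ORw (hVR : T_VRw) (hUB : T_UBw) (hBL : T_BLw) (hPNC : T_PNC) (hNCR : T_NCR)
    (hIE : T_IEq) : T_ORw := by
  clear hNCR
  obtain ⟨C, hC⟩ := hUB
  intro δ hδ
  obtain ⟨R, hR⟩ : ∃ R : ℝ, R = 1 + 128 / δ := ⟨_, rfl⟩
  have hδ' : 0 < 128 / δ := by positivity
  have hR1 : 1 ≤ R := by linarith
  have hR2 : 16 / R ^ 2 ≤ δ / 8 := by
    rw [div_le_div_iff₀ (by positivity) (by norm_num)]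
    have h1 : δ * R = δ + 128 := by
      rw [hR]
      field_simp
    have h2 : R ≤ R ^ 2 := by nlinarith
    have h3 : δ * R ≤ δ * R ^ 2 := mul_le_mul_of_nonneg_left h2 hδ.le
    linarith
  obtain ⟨k, hk⟩ := pow_unbounded_of_one_lt (8 * |C R| / δ) (show (1 : ℝ) < 4 by norm_num)
  have hk' : 8 * |C R| ≤ 4 ^ k * δ := by
    rw [div_lt_iff₀ hδ] at hk
    exact hk.le
  refine ⟨k, fun F _ _ _ _ => ?_⟩
  obtain ⟨A₁, h₁⟩ := hVR F
  obtain ⟨A₂, h₂⟩ := hC F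
  obtain ⟨-, -, c, hc, hcB⟩ := Pool.Agent.H42.SM.pf_CQz F
  refine ⟨max A₁ A₂, fun A T hA hT => ?_⟩
  obtain ⟨x₁, hx₁⟩ := h₁ A R T (δ / 32) ((le_max_left _ _).trans hA) hR1 hT (by positivity)
  obtain ⟨x₂, hx₂⟩ := h₂ A R T ((le_max_right _ _).trans hA) hR1 hT
  obtain ⟨x₃, hx₃⟩ := hPNC F A (1 / 2) (by norm_num)
  refine ⟨max (max x₁ x₂) (max x₃ (max 2 ((2 / c) ^ 2))), fun x q hx hq t ht => ?_⟩
  have g₁ : x₁ ≤ x := (le_max_left _ _).trans ((le_max_left _ _).trans hx)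
  have g₂ : x₂ ≤ x := (le_max_right _ _).trans ((le_max_left _ _).trans hx)
  have g₃ : x₃ ≤ x := (le_max_left _ _).trans ((le_max_right _ _).trans hx)
  have g₄ : 2 ≤ x := (le_max_left _ _).trans ((le_max_right _ _).trans
    ((le_max_right _ _).trans hx))
  have g₅ : (2 / c) ^ 2 ≤ x := (le_max_right _ _).trans ((le_max_right _ _).trans
    ((le_max_right _ _).trans hx))
  obtain ⟨hq2, hqx⟩ := orw_large g₄ hq
  have hmt : qi F q ≠ ⊤ := orw_ne_top F q hq2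
  have hLg : 0 < Lg F q := by
    obtain ⟨e1, -⟩ := hcB q (by omega)
    have h1 : 2 / c ≤ q := by
      refine le_trans ?_ hqx
      exact Real.le_sqrt_of_sq_le g₅
    have h2 : 2 ≤ c * q := by
      rw [div_le_iff₀ hc] at h1
      linarith
    have h3 : (q : ℝ) ≤ (q : ℝ) ^ nrComplexPlaces F := by
      have hq1 : (1 : ℝ) ≤ q := by
        have : 1 ≤ q := by omega
        exact_mod_cast this
      have hn : nrComplexPlaces F ≠ 0 := by
        have := (Pool.Agent.H42.SM.pf_CQz F).1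
        omega
      exact le_self_pow₀ hq1 hn
    have h4 : c * q ≤ c * (q : ℝ) ^ nrComplexPlaces F := mul_le_mul_of_nonneg_left h3 hc.le
    unfold Lg
    rw [e1]
    have h5 : 0 < Real.log (c * (q : ℝ) ^ nrComplexPlaces F) := Real.log_pos (by linarith)
    linarith
  have hr : 0 < gr F R q := by
    unfold gr
    positivity
  obtain ⟨r, hrd⟩ : ∃ r : ℝ, r = gr F R q := ⟨_, rfl⟩
  have hv := hx₁ x q g₁ hq t ht
  have hu := hx₂ x q g₂ hq t ht
  have hp := (hx₃ x q g₃ hq).1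
  rw [← hrd] at hr hv hu
  have hfin : (Pr F (qi F q)).Finite := (hIE F q hq.sq).1
  have hent : ∀ χ ∈ Pr F (qi F q), Differentiable ℂ (Zx χ) := fun χ hχ =>
    (Pool.Agent.H91.CRZ.Zx_ent F χ (by
      have : χ.f = qi F q := hχ
      rw [this]
      exact hmt)).1
  obtain ⟨P, hP⟩ : ∃ P : Finset (RCC F), P = hfin.toFinset := ⟨_, rfl⟩
  have hmem : ∀ χ, χ ∈ P ↔ χ ∈ Pr F (qi F q) := fun χ => by
    rw [hP, Set.Finite.mem_toFinset]
  have hsum : ∀ g : RCC F → ℝ, ∑ᶠ χ ∈ Pr F (qi F q), g χ = ∑ χ ∈ P, g χ := fun g => by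
    rw [hP]
    exact finsum_mem_eq_finite_toFinset_sum g hfin
  rw [hsum] at hv
  obtain ⟨n, hn⟩ : ∃ n : ℝ, n = nc (qi F q) (qi F q) := ⟨_, rfl⟩
  rw [← hn] at hv hp
  have hn0 : 0 ≤ n := by rw [hn]; exact Nat.cast_nonneg _
  obtain ⟨s₀, hs₀⟩ : ∃ s₀ : ℂ, s₀ = 1 / 2 + r + t * I := ⟨_, rfl⟩
  rw [← hs₀] at hv
  -- the first kind
  have hc1 := orw_count P (fun χ => 1 / 2 ≤ ‖Zx χ s₀ * Pw R t q χ - 1‖)
    (fun χ => ‖Zx χ s₀ * Pw R t q χ - 1‖ ^ 2) (1 / 4) ((4 / R ^ 2 + δ / 32) * n)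
    (fun χ _ => sq_nonneg _) (fun χ _ h => by
      have := pow_le_pow_left₀ (by norm_num : (0 : ℝ) ≤ 1 / 2) h 2
      norm_num at this ⊢
      linarith) hv
  -- the second kind
  have hcirc := orw_circle P (fun χ s => Zx χ s * Pw R t q χ) s₀ r (C R * n)
    (fun χ hχ => (hent χ ((hmem χ).1 hχ)).continuous.mul continuous_const) (fun φ => by
      have h1 := hu (2 * r * cexp (φ * I)) (by
        rw [norm_mul, norm_mul, Complex.norm_exp_ofReal_mul_I, Complex.norm_real,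
          Real.norm_of_nonneg hr.le]
        simp)
      rw [hsum, ← hn, ← hs₀] at h1
      exact h1)
  have hc2 := orw_count P (fun χ => ¬ analyticOrderAt (Zx χ) (1 / 2 + t * I) ≤ (k : ℕ∞) ∧
      1 / 2 ≤ ‖Zx χ s₀ * Pw R t q χ‖)
    (fun χ => 1 / (2 * Real.pi) * ∫ φ in (0 : ℝ)..(2 * Real.pi),
      ‖Zx χ (s₀ + 2 * r * cexp (φ * I)) * Pw R t q χ‖ ^ 2) (4 ^ k) (C R * n)
    (fun χ _ => mul_nonneg (by positivity)
      (intervalIntegral.integral_nonneg (by positivity) fun φ _ => sq_nonneg _))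
    (fun χ hχ h => by
      have hd := hent χ ((hmem χ).1 hχ)
      have hb := hBL (fun s => Zx χ s * Pw R t q χ) s₀ (1 / 2 + t * I) r k
        (hd.mul_const _) hr (by
          have : (1 / 2 + t * I : ℂ) - s₀ = -(r : ℂ) := by
            rw [hs₀]
            ring
          rw [this, norm_neg, Complex.norm_real, Real.norm_of_nonneg hr.le])
        (orw_order hd _ _ k h.1)
      refine le_trans ?_ hb
      have h2 : (1 / 2 : ℝ) ^ 2 ≤ ‖Zx χ s₀ * Pw R t q χ‖ ^ 2 :=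
        pow_le_pow_left₀ (by norm_num) h.2 2
      calc (4 : ℝ) ^ k = 4 ^ (k + 1) * (1 / 2) ^ 2 := by
            rw [pow_succ]
            ring
        _ ≤ _ := mul_le_mul_of_nonneg_left h2 (by positivity)) hcirc
  obtain ⟨P₁, hP₁⟩ : ∃ P₁ : Finset (RCC F),
    P₁ = P.filter (fun χ => 1 / 2 ≤ ‖Zx χ s₀ * Pw R t q χ - 1‖) := ⟨_, rfl⟩
  obtain ⟨P₂, hP₂⟩ : ∃ P₂ : Finset (RCC F),
    P₂ = P.filter (fun χ => ¬ analyticOrderAt (Zx χ) (1 / 2 + t * I) ≤ (k : ℕ∞) ∧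
      1 / 2 ≤ ‖Zx χ s₀ * Pw R t q χ‖) := ⟨_, rfl⟩
  rw [← hP₁] at hc1
  rw [← hP₂] at hc2
  have hcov : {χ | χ ∈ Pr F (qi F q) ∧ ¬ analyticOrderAt (Zx χ) (1 / 2 + t * I) ≤ (k : ℕ∞)} ⊆
      ((P₁ ∪ P₂ : Finset (RCC F)) : Set (RCC F)) := by
    intro χ hχ
    rw [Finset.mem_coe, Finset.mem_union, hP₁, hP₂, Finset.mem_filter, Finset.mem_filter]
    rcases le_or_gt (1 / 2) ‖Zx χ s₀ * Pw R t q χ - 1‖ with h | h
    · exact Or.inl ⟨(hmem χ).2 hχ.1, h⟩
    · refine Or.inr ⟨(hmem χ).2 hχ.1, hχ.2, ?_⟩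
      have h3 : ‖(1 : ℂ)‖ ≤ ‖Zx χ s₀ * Pw R t q χ‖ + ‖Zx χ s₀ * Pw R t q χ - 1‖ := by
        have := norm_sub_le (Zx χ s₀ * Pw R t q χ) (Zx χ s₀ * Pw R t q χ - 1)
        rwa [sub_sub_cancel] at this
      rw [norm_one] at h3
      linarith
  have hcard : ({χ | χ ∈ Pr F (qi F q) ∧
      ¬ analyticOrderAt (Zx χ) (1 / 2 + t * I) ≤ (k : ℕ∞)}.ncard : ℝ) ≤ P₁.card + P₂.card := by
    have h1 := Set.ncard_le_ncard hcov (Finset.finite_toSet _)
    rw [Set.ncard_coe_finset] at h1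
    have h2 := Finset.card_union_le P₁ P₂
    exact_mod_cast h1.trans h2
  have h5 : (P₁.card : ℝ) ≤ δ / 4 * n := by
    have h6 : (P₁.card : ℝ) ≤ 4 * ((4 / R ^ 2 + δ / 32) * n) := by linarith
    have h7 : 4 * (4 / R ^ 2 + δ / 32) ≤ δ / 4 := by
      have : 4 * (4 / R ^ 2) = 16 / R ^ 2 := by ring
      linarith
    calc (P₁.card : ℝ) ≤ 4 * ((4 / R ^ 2 + δ / 32) * n) := h6
      _ = 4 * (4 / R ^ 2 + δ / 32) * n := by ring
      _ ≤ δ / 4 * n := mul_le_mul_of_nonneg_right h7 hn0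
  have h8 : (P₂.card : ℝ) ≤ δ / 8 * n := by
    have h9 : (P₂.card : ℝ) * 4 ^ k ≤ δ / 8 * n * 4 ^ k := by
      refine hc2.trans ?_
      have h10 : C R ≤ 4 ^ k * δ / 8 := by
        have := le_abs_self (C R)
        linarith
      calc C R * n ≤ 4 ^ k * δ / 8 * n := mul_le_mul_of_nonneg_right h10 hn0
        _ = δ / 8 * n * 4 ^ k := by ring
    exact le_of_mul_le_mul_right h9 (by positivity)
  have hp2 : n ≤ 2 * (Pr F (qi F q)).ncard := by linarith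
  calc _ ≤ (P₁.card : ℝ) + P₂.card := hcard
    _ ≤ δ / 4 * n + δ / 8 * n := add_le_add h5 h8
    _ = 3 * δ / 8 * n := by ring
    _ ≤ 3 * δ / 8 * (2 * (Pr F (qi F q)).ncard) :=
        mul_le_mul_of_nonneg_left hp2 (by positivity)
    _ ≤ δ * (Pr F (qi F q)).ncard := by
        have : (0 : ℝ) ≤ (Pr F (qi F q)).ncard := Nat.cast_nonneg _
        nlinarith

end Pool.Agent.H13.SMZ
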